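import Pool.Agent.helper88.RQ2.Spec

/-!
# MP_bb0bb6_co, project RQ, row VT: the table method for small labelled sets
-/

open Set Matroid RadonMin

namespace RadonQ2

lemma VT_circ (hGTR : GTR_stmt) {V : Type} [AddCommGroup V] [Module ℝ V] [DecidableEq V] {n : ℕ}
    {p : Fin n → V} (hp : Function.Injective p) {t : Finset (Fin n)} (ht : t.card = 3) :
    (affMat ((Finset.univ : Finset (Fin n)).image p)).IsCircuit ((t.image p : Finset V) : Set V) ↔
      Collinear ℝ ((t.image p : Finset V) : Set V) := by
  obtain ⟨a, b, c, hab, hac, hbc, rfl⟩ := Finset.card_eq_three.1 ht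
  have e : ((({a, b, c} : Finset (Fin n)).image p : Finset V) : Set V) = {p a, p b, p c} := by
    simp
  rw [e]
  have h := hGTR V ((Finset.univ : Finset (Fin n)).image p) (p a) (p b) (p c)
    (Finset.mem_image_of_mem p (Finset.mem_univ a)) (Finset.mem_image_of_mem p (Finset.mem_univ b))
    (Finset.mem_image_of_mem p (Finset.mem_univ c)) (fun h => hab (hp h)) (fun h => hbc (hp h))
    (fun h => hac (hp h))
  exact h

lemma VT_grow (hGTR : GTR_stmt) {V : Type} [AddCommGroup V] [Module ℝ V] [DecidableEq V] {n : ℕ}
    {p : Fin n → V} (hp : Function.Injective p) {T : Finset (Finset (Fin n))}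
    (hT : ∀ t ∈ T, t.card = 3 ∧ Collinear ℝ ((t.image p : Finset V) : Set V)) (A : Finset (Fin n)) :
    (((grow T A).image p : Finset V) : Set V) ⊆
      (affMat ((Finset.univ : Finset (Fin n)).image p)).closure ((A.image p : Finset V) : Set V) := by
  intro y hy
  rw [Finset.coe_image] at hy
  obtain ⟨i, hi, rfl⟩ := hy
  have hsub : ∀ B : Finset (Fin n), ((B.image p : Finset V) : Set V) ⊆
      (affMat ((Finset.univ : Finset (Fin n)).image p)).E := by
    intro B
    rw [affMat_E]
    exact_mod_cast Finset.image_subset_image (Finset.subset_univ B)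
  rw [Finset.mem_coe, grow, Finset.mem_union, Finset.mem_filter] at hi
  rcases hi with hi | ⟨-, t, ht, hit, h2⟩
  · apply mem_closure_of_mem _ _ (hsub A)
    exact_mod_cast Finset.mem_image_of_mem p hi
  · have hc := (VT_circ hGTR hp (hT t ht).1).2 (hT t ht).2
    have hpi : p i ∈ ((t.image p : Finset V) : Set V) := by exact_mod_cast Finset.mem_image_of_mem p hit
    have h3 := hc.mem_closure_sdiff_singleton_of_mem hpi
    refine (Matroid.closure_subset_closure _ ?_) h3
    have h4 : (t.erase i).card = 2 := by rw [Finset.card_erase_of_mem hit, (hT t ht).1]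
    have h5 : t.erase i ∩ A = t.erase i := Finset.eq_of_subset_of_card_le Finset.inter_subset_left (by omega)
    intro y hy
    obtain ⟨hy1, hy2⟩ := hy
    rw [Finset.coe_image] at hy1
    obtain ⟨j, hj, rfl⟩ := hy1
    have hji : j ≠ i := fun h => hy2 (by rw [h]; rfl)
    have hj' : j ∈ t.erase i := Finset.mem_erase.2 ⟨hji, by exact_mod_cast hj⟩
    rw [← h5] at hj'
    exact_mod_cast Finset.mem_image_of_mem p (Finset.mem_inter.1 hj').2

lemma VT_iter (hGTR : GTR_stmt) {V : Type} [AddCommGroup V] [Module ℝ V] [DecidableEq V] {n : ℕ}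
    {p : Fin n → V} (hp : Function.Injective p) {T : Finset (Finset (Fin n))}
    (hT : ∀ t ∈ T, t.card = 3 ∧ Collinear ℝ ((t.image p : Finset V) : Set V)) (m : ℕ) :
    ∀ A : Finset (Fin n), ((((grow T)^[m] A).image p : Finset V) : Set V) ⊆
      (affMat ((Finset.univ : Finset (Fin n)).image p)).closure ((A.image p : Finset V) : Set V) := by
  induction m with
  | zero =>
      intro A
      refine Matroid.subset_closure _ _ ?_
      rw [affMat_E]
      exact_mod_cast Finset.image_subset_image (Finset.subset_univ A)
  | succ m ih =>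
      intro A
      rw [Function.iterate_succ_apply]
      refine (ih (grow T A)).trans ?_
      exact closure_subset_closure_of_subset_closure (VT_grow hGTR hp hT A)

/-- the rank of the whole set -/
lemma VT_rk (hGTR : GTR_stmt) {V : Type} [AddCommGroup V] [Module ℝ V] [DecidableEq V] {n : ℕ}
    {p : Fin n → V} (hp : Function.Injective p) {T : Finset (Finset (Fin n))}
    (hT : ∀ t ∈ T, t.card = 3 ∧ Collinear ℝ ((t.image p : Finset V) : Set V)) {A : Finset (Fin n)}
    (hA : (grow T)^[n] A = Finset.univ) :
    ra ((Finset.univ : Finset (Fin n)).image p) ≤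
      rk (affMat ((Finset.univ : Finset (Fin n)).image p)) ((A.image p : Finset V) : Set V) := by
  have h1 := VT_iter hGTR hp hT n A
  rw [hA] at h1
  have h2 := rk_mono (affMat ((Finset.univ : Finset (Fin n)).image p)) h1
  have h3 : rk (affMat ((Finset.univ : Finset (Fin n)).image p))
      ((affMat ((Finset.univ : Finset (Fin n)).image p)).closure ((A.image p : Finset V) : Set V)) =
      rk (affMat ((Finset.univ : Finset (Fin n)).image p)) ((A.image p : Finset V) : Set V) := by
    unfold rk
    rw [eRk_closure_eq]
  rw [h3] at h2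
  exact h2

theorem VT_proof (hGTR : GTR_stmt) (hGCO : GCO_stmt) : VT_stmt := by
  intro V _ _ _ n p hp T N hT hN hA hnc hall
  obtain ⟨X, hX⟩ : ∃ X : Finset V, X = (Finset.univ : Finset (Fin n)).image p := ⟨_, rfl⟩
  obtain ⟨A, hA3, hAn⟩ := hA
  have hle : ra ((Finset.univ : Finset (Fin n)).image p) ≤ 3 := by
    refine (VT_rk hGTR hp hT hAn).trans ?_
    have h1 : ((A.image p : Finset V) : Set V) ⊆ (affMat ((Finset.univ : Finset (Fin n)).image p)).E := by
      rw [affMat_E]
      exact_mod_cast Finset.image_subset_image (Finset.subset_univ A)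
    refine (rk_le_ncard h1).trans ?_
    rw [ncard_coe_finset, Finset.card_image_of_injective A hp, hA3]
  have hge : 3 ≤ ra ((Finset.univ : Finset (Fin n)).image p) := by
    by_contra hlt
    exact hnc ((hGCO V _).1 (by omega))
  have hra : ra ((Finset.univ : Finset (Fin n)).image p) = 3 := le_antisymm hle hge
  refine ⟨hra, ?_⟩
  obtain ⟨F, hF⟩ : ∃ F : Finset (Finset (Fin n)), F = (Finset.powersetCard 4 (Finset.univ : Finset (Fin n))).filter
      (fun u => ∀ t ∈ T, ¬ t ⊆ u) := ⟨_, rfl⟩
  rw [← hF]
  have hsub : {C : Set V | (affMat ((Finset.univ : Finset (Fin n)).image p)).IsCircuit C} ⊆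
      (fun t : Finset (Fin n) => ((t.image p : Finset V) : Set V)) '' ((T ∪ F : Finset (Finset (Fin n))) : Set (Finset (Fin n))) := by
    intro C hC
    have hC' : (affMat ((Finset.univ : Finset (Fin n)).image p)).IsCircuit C := hC
    have hCE := hC'.subset_ground
    rw [affMat_E, Finset.coe_image, Finset.coe_univ, Set.image_univ] at hCE
    obtain ⟨t, ht⟩ : ∃ t : Finset (Fin n), ((t.image p : Finset V) : Set V) = C := by
      classical
      refine ⟨Finset.univ.filter fun i => p i ∈ C, ?_⟩
      ext y
      rw [Finset.coe_image, Set.mem_image]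
      constructor
      · rintro ⟨i, hi, rfl⟩
        exact (Finset.mem_filter.1 (Finset.mem_coe.1 hi)).2
      · intro hy
        obtain ⟨i, rfl⟩ := hCE hy
        exact ⟨i, Finset.mem_coe.2 (Finset.mem_filter.2 ⟨Finset.mem_univ i, hy⟩), rfl⟩
    have hcard : C.ncard = t.card := by
      rw [← ht, ncard_coe_finset, Finset.card_image_of_injective t hp]
    have h3 : 3 ≤ t.card := by
      rw [← hcard]
      exact affMat_simp _ C hC'
    have h4 : rk (affMat ((Finset.univ : Finset (Fin n)).image p)) C + 1 = t.card := by
      rw [← hcard]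
      exact rk_circuit hC'
    have h5 : rk (affMat ((Finset.univ : Finset (Fin n)).image p)) C ≤ 3 := by
      have h6 := rk_mono (affMat ((Finset.univ : Finset (Fin n)).image p)) hC'.subset_ground
      rw [affMat_E] at h6
      exact h6.trans hle
    have hlt : t.card = 3 ∨ t.card = 4 := by omega
    refine ⟨t, ?_, ht⟩
    rw [Finset.mem_coe, Finset.mem_union]
    rcases hlt with h | h
    · left
      have hcol := (VT_circ hGTR hp h).1 (by rw [ht]; exact hC')
      rcases hall t h with h6 | h6 | h6
      · exact h6
      · exact absurd hcol (hN t h6)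
      · have h7 := VT_rk hGTR hp hT h6
        rw [ht] at h7
        omega
    · right
      rw [hF, Finset.mem_filter, Finset.mem_powersetCard]
      refine ⟨⟨Finset.subset_univ t, h⟩, ?_⟩
      intro s hs hst
      have hsc := (VT_circ hGTR hp (hT s hs).1).2 (hT s hs).2
      have hss : ((s.image p : Finset V) : Set V) ⊆ C := by
        rw [← ht]
        exact_mod_cast Finset.image_subset_image hst
      have heq := hsc.eq_of_subset_isCircuit hC' hss
      have h7 : ((s.image p : Finset V) : Set V).ncard = s.card := by
        rw [ncard_coe_finset, Finset.card_image_of_injective s hp]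
      rw [heq, hcard, (hT s hs).1] at h7
      omega
  show cc (affMat ((Finset.univ : Finset (Fin n)).image p)) ≤ _
  unfold cc
  calc _ ≤ ((fun t : Finset (Fin n) => ((t.image p : Finset V) : Set V)) '' ((T ∪ F : Finset (Finset (Fin n))) : Set (Finset (Fin n)))).ncard :=
        ncard_le_ncard hsub ((Finset.finite_toSet _).image _)
    _ ≤ ((T ∪ F : Finset (Finset (Fin n))) : Set (Finset (Fin n))).ncard := ncard_image_le (Finset.finite_toSet _)
    _ = (T ∪ F).card := ncard_coe_finset _
    _ ≤ T.card + F.card := Finset.card_union_le _ _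

end RadonQ2
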